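import Mathlib

/-!
# Filtrations on the zero-cycles on the powers of a variety

`P` is the set of points of a variety `X` and `G` is a set of automorphisms of `X`, given by their
action `act` on `P`. We consider the morphisms `X ^ m → X ^ m'` all of whose components are constant
or a factor followed by an element of `G`, and filtrations on the zero-cycles on all powers of `X`.
-/

set_option autoImplicit false

noncomputable section

namespace Pool.Agent.BBF

universe u v w

/-- A morphism from `X ^ m` to `X`: a constant, or the factor with number `i` followed by the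
automorphism `g`. -/
inductive Comp (P : Type u) (G : Type v) (m : ℕ) : Type (max u v)
  | const (p : P) : Comp P G m
  | fac (i : Fin m) (g : G) : Comp P G m

/-- The morphisms from `X ^ m` to `X ^ m'`: projections, diagonals, constants, elements of `G` and
everything composed from them. -/
abbrev Mor (P : Type u) (G : Type v) (m m' : ℕ) : Type (max u v) := Fin m' → Comp P G m

variable {P : Type u} {G : Type v} {m m' : ℕ} {R : Type w} [Field R]

/-- The value of the component at a point. -/
def Comp.app (act : G → P → P) (f : Comp P G m) (x : Fin m → P) : P :=
  match f with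
  | .const p => p
  | .fac i g => act g (x i)

/-- The value of the morphism at a point. -/
def Mor.app (act : G → P → P) (f : Mor P G m m') (x : Fin m → P) : Fin m' → P :=
  fun j => (f j).app act x

/-- The push-forward of zero-cycles by a combination of morphisms (a correspondence). -/
def pushM (act : G → P → P) (γ : Mor P G m m' →₀ R) :
    ((Fin m → P) →₀ R) →ₗ[R] ((Fin m' → P) →₀ R) :=
  γ.sum fun f c => c • Finsupp.lmapDomain R R (f.app act)

/-- The product of the differences `[x i] - [y i]` for `i ∈ I` and of the points `x i` for
`i ∉ I`. -/
def cyc (R : Type w) [Field R] (I : Finset (Fin m)) (x y : Fin m → P) : (Fin m → P) →₀ R :=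
  ∑ S ∈ I.powerset, Finsupp.single (fun i => if i ∈ S then y i else x i) ((-1) ^ S.card)

/-- The filtration on the zero-cycles on `X ^ m`, where `X` is of dimension `n` and `rat m` is the
space of zero-cycles on `X ^ m` which are rationally equivalent to zero: `F^ν` is generated by the
products of `m` zero-cycles on `X` (differences of points and points) of which at least `ν / n` have
degree zero. -/
def Fil (rat : ∀ m : ℕ, Submodule R ((Fin m → P) →₀ R)) (n m ν : ℕ) :
    Submodule R ((Fin m → P) →₀ R) :=
  Submodule.span R {z | ∃ (I : Finset (Fin m)) (x y : Fin m → P), ν ≤ n * I.card ∧ z = cyc R I x y} ⊔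
    rat m

/-- `I` and `J` are increasing sequences of `k` factors of `X ^ m` and `X ^ m'`. The component `J b`
of `f` is the automorphism `s b` of the factor `I (τ b)`, for all `b`; so `f` induces an isomorphism
from `X ^ k` (the factors `I`) to `X ^ k` (the factors `J`). -/
def Induces (f : Mor P G m m') {k : ℕ} (I : Fin k ↪o Fin m) (J : Fin k ↪o Fin m')
    (τ : Equiv.Perm (Fin k)) (s : Fin k → G) : Prop :=
  ∀ b, f (J b) = Comp.fac (I (τ b)) (s b)

/-- the number of the factor of a non-constant component -/
def Comp.src : Comp P G m → Option (Fin m)
  | .const _ => none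
  | .fac i _ => some i

/-- `f` maps `K` onto `I` -/
def Onto (f : Mor P G m m') (K : Finset (Fin m')) (I : Finset (Fin m)) : Prop :=
  (∀ j ∈ K, ∃ i ∈ I, (f j).src = some i) ∧ ∀ i ∈ I, ∃ j ∈ K, (f j).src = some i

/-- the morphism `X ^ k → X ^ m'`, the factors `κ b`, with the constant `o` elsewhere -/
def emb (e : G) (o : P) {k : ℕ} (κ : Fin k ↪o Fin m') : Mor P G k m' := by
  classical
  exact fun j => if h : ∃ b, κ b = j then Comp.fac h.choose e else Comp.const o

/-- the automorphism of `X ^ k` -/
def symAct (act : G → P → P) {k : ℕ} (τ : Equiv.Perm (Fin k)) (s : Fin k → G) (x : Fin k → P) :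
    Fin k → P := fun b => act (s b) (x (τ b))

end Pool.Agent.BBF
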