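import Pool.Agent.BBF.Defs

/-!
# The filtration: first properties
-/

set_option autoImplicit false

noncomputable section

namespace Pool.Agent.BBF

universe u v w

variable {P : Type u} {G : Type v} {m m' : ℕ} {R : Type w} [Field R]
  {rat : ∀ m : ℕ, Submodule R ((Fin m → P) →₀ R)}

theorem rat_le_Fil (n ν : ℕ) : rat m ≤ Fil rat n m ν := le_sup_right

theorem Fil_anti (n ν : ℕ) : Fil rat n m (ν + 1) ≤ Fil rat n m ν := by
  apply sup_le_sup_right
  apply Submodule.span_mono
  rintro z ⟨I, x, y, hI, rfl⟩
  exact ⟨I, x, y, by omega, rfl⟩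

theorem cyc_mem (n ν : ℕ) {I : Finset (Fin m)} {x y : Fin m → P}
    (h : ν ≤ n * I.card) : cyc R I x y ∈ Fil rat n m ν :=
  Submodule.mem_sup_left (Submodule.subset_span ⟨I, x, y, h, rfl⟩)

theorem cyc_empty (x y : Fin m → P) : cyc R ∅ x y = Finsupp.single x 1 := by
  unfold cyc
  simp

theorem Fil_zero (n : ℕ) : Fil rat n m 0 = ⊤ := by
  rw [eq_top_iff]
  intro z _
  rw [← Finsupp.sum_single z]
  apply Submodule.sum_mem
  intro p hp
  have h1 : (Finsupp.single p (z p) : (Fin m → P) →₀ R) = z p • cyc R ∅ p p := by
    rw [cyc_empty, Finsupp.smul_single, smul_eq_mul, mul_one]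
  rw [h1]
  exact Submodule.smul_mem _ _ (cyc_mem n 0 (Nat.zero_le _))

/-- the degree of a zero-cycle -/
private def degL : ((Fin m → P) →₀ R) →ₗ[R] R := Finsupp.linearCombination R fun _ => (1 : R)

private theorem degL_eq (z : (Fin m → P) →₀ R) : degL z = z.sum fun _ c => c := by
  unfold degL
  rw [Finsupp.linearCombination_apply]
  simp

private theorem degL_cyc {I : Finset (Fin m)} (hI : I.Nonempty) (x y : Fin m → P) :
    degL (cyc R I x y) = 0 := by
  unfold cyc
  rw [map_sum]
  have h1 : ∀ S ∈ I.powerset, degL (Finsupp.single (fun i => if i ∈ S then y i else x i)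
      ((-1 : R) ^ S.card)) = (((-1 : ℤ) ^ S.card : ℤ) : R) := by
    intro S _
    unfold degL
    rw [Finsupp.linearCombination_single]
    simp
  rw [Finset.sum_congr rfl h1, ← Int.cast_sum, Finset.sum_powerset_neg_one_pow_card_of_nonempty hI]
  simp

/-- a point can be changed to another one -/
private theorem single_sub_mem (n : ℕ) (hn : 1 ≤ n) (x y : Fin m → P) :
    (Finsupp.single x 1 - Finsupp.single y 1 : (Fin m → P) →₀ R) ∈ Fil rat n m 1 := by
  have h1 : ∀ k ≤ m, (Finsupp.single x 1 -
      Finsupp.single (fun i : Fin m => if (i : ℕ) < k then y i else x i) 1 :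
        (Fin m → P) →₀ R) ∈ Fil rat n m 1 := by
    intro k
    induction k with
    | zero =>
      intro _
      simp
    | succ k ih =>
      intro hk
      have h2 := ih (by omega)
      set w : Fin m → P := fun i : Fin m => if (i : ℕ) < k then y i else x i with hw
      have h3 : cyc R {(⟨k, by omega⟩ : Fin m)} w y = (Finsupp.single w 1 -
          Finsupp.single (fun i : Fin m => if (i : ℕ) < k + 1 then y i else x i) 1 :
            (Fin m → P) →₀ R) := by
        unfold cyc
        have h4 : (({(⟨k, by omega⟩ : Fin m)} : Finset (Fin m)).powerset) =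
            {∅, {(⟨k, by omega⟩ : Fin m)}} := by
          ext S
          rw [Finset.mem_powerset, Finset.subset_singleton_iff, Finset.mem_insert,
            Finset.mem_singleton]
        rw [h4, Finset.sum_pair (Finset.singleton_ne_empty _).symm]
        simp only [Finset.notMem_empty, if_false, Finset.card_empty, pow_zero,
          Finset.card_singleton, pow_one, Finset.mem_singleton]
        have h5 : (fun i : Fin m => if i = (⟨k, by omega⟩ : Fin m) then y i else w i) =
            fun i : Fin m => if (i : ℕ) < k + 1 then y i else x i := by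
          funext i
          rw [hw]
          by_cases hi : i = (⟨k, by omega⟩ : Fin m)
          · subst hi
            simp
          · have hi' : (i : ℕ) ≠ k := fun h => hi (Fin.ext h)
            simp only [if_neg hi]
            by_cases h6 : (i : ℕ) < k
            · rw [if_pos h6, if_pos (by omega)]
            · rw [if_neg h6, if_neg (by omega)]
        rw [h5, Finsupp.single_neg, ← sub_eq_add_neg]
      have h6 : cyc R {(⟨k, by omega⟩ : Fin m)} w y ∈ Fil rat n m 1 :=
        cyc_mem n 1 (by rw [Finset.card_singleton]; omega)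
      rw [h3] at h6
      have h7 := Submodule.add_mem _ h2 h6
      rwa [sub_add_sub_cancel] at h7
  have h8 := h1 m le_rfl
  have h9 : (fun i : Fin m => if (i : ℕ) < m then y i else x i) = y := by
    funext i
    rw [if_pos i.isLt]
  rwa [h9] at h8

theorem Fil_one (n : ℕ) (hn : 1 ≤ n) (hdeg : ∀ z ∈ rat m, (z.sum fun _ c => c) = 0)
    (z : (Fin m → P) →₀ R) : z ∈ Fil rat n m 1 ↔ (z.sum fun _ c => c) = 0 := by
  constructor
  · intro hz
    rw [← degL_eq]
    have h1 : Fil rat n m 1 ≤ LinearMap.ker (degL (R := R) (P := P) (m := m)) := by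
      apply sup_le
      · rw [Submodule.span_le]
        rintro w ⟨I, x, y, hI, rfl⟩
        rw [SetLike.mem_coe, LinearMap.mem_ker]
        apply degL_cyc
        rw [Finset.nonempty_iff_ne_empty]
        rintro rfl
        simp at hI
      · intro w hw
        rw [LinearMap.mem_ker, degL_eq]
        exact hdeg w hw
    exact LinearMap.mem_ker.1 (h1 hz)
  · rintro hdeg
    by_cases h0 : z.support = ∅
    · rw [Finsupp.support_eq_empty] at h0
      rw [h0]
      exact Submodule.zero_mem _
    · obtain ⟨p₀, hp₀⟩ := Finset.nonempty_iff_ne_empty.2 h0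
      have h1 : z = ∑ p ∈ z.support, z p • (Finsupp.single p 1 - Finsupp.single p₀ 1 :
          (Fin m → P) →₀ R) := by
        have h2 : ∀ p ∈ z.support, z p • (Finsupp.single p 1 - Finsupp.single p₀ 1 :
            (Fin m → P) →₀ R) = Finsupp.single p (z p) - z p • Finsupp.single p₀ 1 := by
          intro p _
          rw [smul_sub, Finsupp.smul_single, smul_eq_mul, mul_one]
        rw [Finset.sum_congr rfl h2, Finset.sum_sub_distrib, ← Finset.sum_smul]
        have h3 : ∑ p ∈ z.support, z p = 0 := hdeg
        rw [h3, zero_smul, sub_zero]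
        exact (Finsupp.sum_single z).symm
      rw [h1]
      apply Submodule.sum_mem
      intro p hp
      exact Submodule.smul_mem _ _ (single_sub_mem n hn p p₀)

theorem Fil_two (n : ℕ) (hn : 2 ≤ n) : Fil rat n m 2 = Fil rat n m 1 := by
  apply le_antisymm (Fil_anti n 1)
  apply sup_le_sup_right
  apply Submodule.span_mono
  rintro z ⟨I, x, y, hI, rfl⟩
  refine ⟨I, x, y, ?_, rfl⟩
  have h1 : 1 ≤ I.card := by
    rcases Nat.eq_zero_or_pos I.card with h | h
    · rw [h] at hI
      omega
    · exact h
  calc 2 ≤ n * 1 := by omega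
    _ ≤ n * I.card := Nat.mul_le_mul_left n h1

theorem Fil_top (n : ℕ) : Fil rat n m (n * m + 1) = rat m := by
  apply le_antisymm _ (rat_le_Fil n _)
  apply sup_le _ le_rfl
  rw [Submodule.span_le]
  rintro z ⟨I, x, y, hI, rfl⟩
  exfalso
  have h1 : I.card ≤ m := by
    have := Finset.card_le_univ I
    simpa using this
  have h2 := Nat.mul_le_mul_left n h1
  omega

/-! ### The push-forward of a product of differences -/

/-- alternating sums over an interval of sets -/
private theorem mapCyc_alt {α : Type} [DecidableEq α] (A I : Finset α) (h : A ⊆ I) :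
    ∑ S ∈ I.powerset, (if A ⊆ S then (-1 : R) ^ S.card else 0)
      = if A = I then (-1) ^ I.card else 0 := by
  split_ifs with hAI
  · subst hAI
    rw [Finset.sum_eq_single A]
    · rw [if_pos (Finset.Subset.refl A)]
    · intro S hS hne
      rw [if_neg]
      intro h2
      exact hne (Finset.Subset.antisymm (Finset.mem_powerset.1 hS) h2)
    · intro h2
      exact absurd (Finset.mem_powerset.2 (Finset.Subset.refl A)) h2
  · obtain ⟨i, hi, hiA⟩ : ∃ i ∈ I, i ∉ A := by
      by_contra hcon
      push Not at hcon
      exact hAI (Finset.Subset.antisymm h hcon)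
    have hI : I = insert i (I.erase i) := (Finset.insert_erase hi).symm
    rw [hI, Finset.sum_powerset_insert (Finset.notMem_erase i I), ← Finset.sum_add_distrib]
    refine Finset.sum_eq_zero fun S hS => ?_
    have hiS : i ∉ S := fun h2 => by
      have := Finset.mem_powerset.1 hS h2
      exact Finset.notMem_erase i I this
    have e : A ⊆ insert i S ↔ A ⊆ S := by
      constructor
      · intro h2 a ha
        rcases Finset.mem_insert.1 (h2 ha) with h3 | h3
        · exact absurd (h3 ▸ ha) hiA
        · exact h3
      · intro h2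
        exact h2.trans (Finset.subset_insert i S)
    rw [Finset.card_insert_of_notMem hiS]
    simp only [e]
    split_ifs
    · rw [pow_succ]
      ring
    · simp

/-- one of the points of the cube -/
private def mapCyc_e (x y : Fin m → P) (S : Finset (Fin m)) : (Fin m → P) →₀ R :=
  Finsupp.single (fun i => if i ∈ S then y i else x i) 1

private theorem mapCyc_cyc (I : Finset (Fin m)) (x y : Fin m → P) :
    cyc R I x y = ∑ S ∈ I.powerset, ((-1 : R) ^ S.card) • mapCyc_e x y S := by
  unfold cyc mapCyc_e
  refine Finset.sum_congr rfl fun S _ => ?_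
  rw [Finsupp.smul_single, smul_eq_mul, mul_one]

private theorem mapCyc_moebius (T : Finset (Fin m)) (x y : Fin m → P) :
    mapCyc_e x y T = ∑ K ∈ T.powerset, ((-1 : R) ^ K.card) • cyc R K x y := by
  classical
  have h1 : ∀ K ∈ T.powerset, ((-1 : R) ^ K.card) • cyc R K x y
      = ∑ S ∈ T.powerset, ((if S ⊆ K then (-1 : R) ^ K.card else 0) * (-1) ^ S.card) •
        mapCyc_e x y S := by
    intro K hK
    rw [mapCyc_cyc, Finset.smul_sum]
    have hK' := Finset.mem_powerset.1 hK
    rw [← Finset.sum_subset (Finset.powerset_mono.2 hK')]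
    · refine Finset.sum_congr rfl fun S hS => ?_
      rw [if_pos (Finset.mem_powerset.1 hS), smul_smul]
    · intro S _ hS
      rw [if_neg (fun h => hS (Finset.mem_powerset.2 h)), zero_mul, zero_smul]
  rw [Finset.sum_congr rfl h1, Finset.sum_comm]
  have h2 : ∀ S ∈ T.powerset, ∑ K ∈ T.powerset,
      ((if S ⊆ K then (-1 : R) ^ K.card else 0) * (-1) ^ S.card) • (mapCyc_e x y S :
        (Fin m → P) →₀ R)
      = ((if S = T then (-1 : R) ^ T.card else 0) * (-1) ^ S.card) • mapCyc_e x y S := by
    intro S hS
    rw [← Finset.sum_smul, ← Finset.sum_mul, mapCyc_alt S T (Finset.mem_powerset.1 hS)]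
  rw [Finset.sum_congr rfl h2, Finset.sum_eq_single T]
  · rw [if_pos rfl, ← pow_add, ← two_mul, pow_mul, neg_one_sq, one_pow, one_smul]
  · intro S _ hS
    rw [if_neg hS, zero_mul, zero_smul]
  · intro h
    exact absurd (Finset.mem_powerset.2 (Finset.Subset.refl T)) h

open Classical in
/-- the components which come from `S` -/
private def mapCyc_T (f : Mor P G m m') (S : Finset (Fin m)) : Finset (Fin m') :=
  Finset.univ.filter fun j => ∃ i ∈ S, (f j).src = some i

private theorem mapCyc_mem_T (f : Mor P G m m') (S : Finset (Fin m)) (j : Fin m') :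
    j ∈ mapCyc_T f S ↔ ∃ i ∈ S, (f j).src = some i := by
  classical
  unfold mapCyc_T
  simp

private theorem mapCyc_app (act : G → P → P) (f : Mor P G m m') (x y : Fin m → P)
    (S : Finset (Fin m)) :
    f.app act (fun i => if i ∈ S then y i else x i)
      = fun j => if j ∈ mapCyc_T f S then f.app act y j else f.app act x j := by
  funext j
  by_cases h : j ∈ mapCyc_T f S
  · rw [if_pos h]
    rw [mapCyc_mem_T] at h
    obtain ⟨i, hi, hji⟩ := h
    unfold Mor.app
    cases hf : f j with
    | const p => rfl
    | fac i' g =>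
      rw [hf] at hji
      have e : i' = i := by simpa [Comp.src] using hji
      subst e
      simp only [Comp.app, if_pos hi]
  · rw [if_neg h]
    rw [mapCyc_mem_T] at h
    unfold Mor.app
    cases hf : f j with
    | const p => rfl
    | fac i' g =>
      have hi : i' ∉ S := fun hi => h ⟨i', hi, by rw [hf]; rfl⟩
      simp only [Comp.app, if_neg hi]

private theorem mapCyc_map_e (act : G → P → P) (f : Mor P G m m') (x y : Fin m → P)
    (S : Finset (Fin m)) : (mapCyc_e x y S : (Fin m → P) →₀ R).mapDomain (f.app act) =
      mapCyc_e (f.app act x) (f.app act y) (mapCyc_T f S) := by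
  unfold mapCyc_e
  rw [Finsupp.mapDomain_single, mapCyc_app]

open Classical in
private theorem mapCyc_inner (f : Mor P G m m') (I : Finset (Fin m)) (K : Finset (Fin m')) :
    ∑ S ∈ I.powerset, (if K ⊆ mapCyc_T f S then (-1 : R) ^ S.card else 0)
      = if Onto f K I then (-1) ^ I.card else 0 := by
  by_cases hK : ∀ j ∈ K, ∃ i ∈ I, (f j).src = some i
  · -- the set of sources
    let A : Finset (Fin m) := I.filter fun i => ∃ j ∈ K, (f j).src = some i
    have hA : A ⊆ I := Finset.filter_subset _ _
    have e1 : ∀ S ∈ I.powerset, (K ⊆ mapCyc_T f S ↔ A ⊆ S) := by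
      intro S hS
      constructor
      · intro h i hi
        obtain ⟨_, j, hj, hji⟩ := Finset.mem_filter.1 hi
        obtain ⟨i', hi', hji'⟩ := (mapCyc_mem_T f S j).1 (h hj)
        rw [hji] at hji'
        have e : i = i' := by simpa using hji'
        rwa [e]
      · intro h j hj
        obtain ⟨i, hi, hji⟩ := hK j hj
        exact (mapCyc_mem_T f S j).2 ⟨i, h (Finset.mem_filter.2 ⟨hi, j, hj, hji⟩), hji⟩
    have e2 : Onto f K I ↔ A = I := by
      constructor
      · intro h
        refine Finset.Subset.antisymm hA fun i hi => ?_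
        exact Finset.mem_filter.2 ⟨hi, h.2 i hi⟩
      · intro h
        refine ⟨hK, fun i hi => ?_⟩
        rw [← h] at hi
        exact (Finset.mem_filter.1 hi).2
    rw [Finset.sum_congr rfl fun S hS => by rw [if_congr (e1 S hS) rfl rfl]]
    rw [mapCyc_alt A I hA, if_congr e2 rfl rfl]
  · rw [if_neg (fun h => hK h.1)]
    refine Finset.sum_eq_zero fun S hS => ?_
    rw [if_neg]
    intro h
    apply hK
    intro j hj
    obtain ⟨i, hi, hji⟩ := (mapCyc_mem_T f S j).1 (h hj)
    exact ⟨i, Finset.mem_powerset.1 hS hi, hji⟩

open Classical in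
theorem map_cyc (act : G → P → P) (f : Mor P G m m') (I : Finset (Fin m)) (x y : Fin m → P) :
    (cyc R I x y).mapDomain (f.app act) = ∑ K : Finset (Fin m') with Onto f K I,
      ((-1 : R) ^ (K.card + I.card)) • cyc R K (f.app act x) (f.app act y) := by
  have h1 : (cyc R I x y).mapDomain (f.app act) = ∑ S ∈ I.powerset, ((-1 : R) ^ S.card) •
      mapCyc_e (f.app act x) (f.app act y) (mapCyc_T f S) := by
    rw [mapCyc_cyc, Finsupp.mapDomain_finsetSum]
    refine Finset.sum_congr rfl fun S _ => ?_
    rw [Finsupp.mapDomain_smul, mapCyc_map_e]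
  have h2 : ∀ S ∈ I.powerset, ((-1 : R) ^ S.card) •
      mapCyc_e (f.app act x) (f.app act y) (mapCyc_T f S)
      = ∑ K : Finset (Fin m'), ((if K ⊆ mapCyc_T f S then (-1 : R) ^ S.card else 0)
        * (-1) ^ K.card) • cyc R K (f.app act x) (f.app act y) := by
    intro S _
    rw [mapCyc_moebius, Finset.smul_sum]
    rw [← Finset.sum_subset (Finset.subset_univ (mapCyc_T f S).powerset)]
    · refine Finset.sum_congr rfl fun K hK => ?_
      rw [if_pos (Finset.mem_powerset.1 hK), smul_smul]
    · intro K _ hK
      rw [if_neg (fun h => hK (Finset.mem_powerset.2 h)), zero_mul, zero_smul]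
  rw [h1, Finset.sum_congr rfl h2, Finset.sum_comm, Finset.sum_filter]
  refine Finset.sum_congr rfl fun K _ => ?_
  rw [← Finset.sum_smul, ← Finset.sum_mul, mapCyc_inner]
  split_ifs
  · rw [pow_add, mul_comm]
  · rw [zero_mul, zero_smul]

theorem card_le_of_onto {f : Mor P G m m'} {K : Finset (Fin m')} {I : Finset (Fin m)}
    (h : Onto f K I) : I.card ≤ K.card := by
  classical
  have h1 : I.map Function.Embedding.some ⊆ K.image fun j => (f j).src := by
    intro o ho
    obtain ⟨i, hi, rfl⟩ := Finset.mem_map.1 ho
    obtain ⟨j, hj, hji⟩ := h.2 i hi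
    exact Finset.mem_image.2 ⟨j, hj, hji⟩
  have h2 := (Finset.card_le_card h1).trans Finset.card_image_le
  rwa [Finset.card_map] at h2

theorem Fil_map (act : G → P → P) (n ν : ℕ) (f : Mor P G m m')
    (hrat : (rat m).map (Finsupp.lmapDomain R R (f.app act)) ≤ rat m') :
    (Fil rat n m ν).map (Finsupp.lmapDomain R R (f.app act)) ≤ Fil rat n m' ν := by
  classical
  unfold Fil
  rw [Submodule.map_sup]
  refine sup_le ?_ (hrat.trans le_sup_right)
  rw [Submodule.map_span, Submodule.span_le]
  rintro _ ⟨_, ⟨I, x, y, hν, rfl⟩, rfl⟩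
  refine Submodule.mem_sup_left ?_
  rw [Finsupp.lmapDomain_apply, map_cyc]
  refine Submodule.sum_mem _ fun K hK => Submodule.smul_mem _ _ (Submodule.subset_span ?_)
  have hK' := (Finset.mem_filter.1 hK).2
  exact ⟨K, f.app act x, f.app act y, hν.trans (Nat.mul_le_mul_left n (card_le_of_onto hK')), rfl⟩

/-! ### Change of the base points -/

private lemma cycBase_congr (J : Finset (Fin m)) (x y y' : Fin m → P) (h : ∀ j ∈ J, y j = y' j) :
    cyc R J x y = cyc R J x y' := by
  unfold cyc
  apply Finset.sum_congr rfl
  intro S hS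
  rw [Finset.mem_powerset] at hS
  congr 1
  funext i
  by_cases hi : i ∈ S
  · rw [if_pos hi, if_pos hi, h i (hS hi)]
  · rw [if_neg hi, if_neg hi]

private lemma cycBase_insert (J : Finset (Fin m)) {i : Fin m} (hi : i ∉ J) (x y : Fin m → P) :
    cyc R (insert i J) x y = cyc R J x y - cyc R J (Function.update x i (y i)) y := by
  unfold cyc
  rw [Finset.sum_powerset_insert hi, sub_eq_add_neg, ← Finset.sum_neg_distrib]
  congr 1
  apply Finset.sum_congr rfl
  intro S hS
  rw [Finset.mem_powerset] at hS
  have hiS : i ∉ S := fun h => hi (hS h)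
  rw [← Finsupp.single_neg, Finset.card_insert_of_notMem hiS, pow_succ, mul_neg_one]
  congr 1
  funext l
  by_cases hl : l = i
  · subst hl
    rw [if_pos (Finset.mem_insert_self _ _), if_neg hiS, Function.update_self]
  · by_cases hlS : l ∈ S
    · rw [if_pos (Finset.mem_insert_of_mem hlS), if_pos hlS]
    · rw [if_neg, if_neg hlS, Function.update_of_ne hl]
      rw [Finset.mem_insert]
      rintro (h | h)
      · exact hl h
      · exact hlS h

theorem cyc_base (n : ℕ) (J : Finset (Fin m)) (w w' v v' : Fin m → P)
    (h : ∀ j ∈ J, w j = v j ∧ w' j = v' j) :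
    cyc R J w w' - cyc R J v v' ∈ Fil rat n m (n * (J.card + 1)) := by
  have key : ∀ T : Finset (Fin m), Disjoint T J →
      cyc R J w w' - cyc R J (fun i => if i ∈ T then v i else w i) w' ∈
        Fil rat n m (n * (J.card + 1)) := by
    intro T
    induction T using Finset.induction_on with
    | empty =>
      intro _
      have : (fun i : Fin m => if i ∈ (∅ : Finset (Fin m)) then v i else w i) = w := by
        funext i
        simp
      rw [this, sub_self]
      exact Submodule.zero_mem _
    | insert i T hiT ih =>
      intro hdisj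
      rw [Finset.disjoint_insert_left] at hdisj
      obtain ⟨hiJ, hTJ⟩ := hdisj
      have h1 := ih hTJ
      have hstep : cyc R J (fun l => if l ∈ T then v l else w l) w' -
          cyc R J (fun l => if l ∈ insert i T then v l else w l) w' =
          cyc R (insert i J) (fun l => if l ∈ T then v l else w l)
            (Function.update w' i (v i)) := by
        rw [cycBase_insert J hiJ]
        have e1 : ∀ x : Fin m → P, cyc R J x (Function.update w' i (v i)) = cyc R J x w' := by
          intro x
          apply cycBase_congr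
          intro j hj
          rw [Function.update_of_ne]
          rintro rfl
          exact hiJ hj
        rw [e1, e1]
        congr 2
        funext l
        by_cases hl : l = i
        · subst hl
          rw [if_pos (Finset.mem_insert_self _ _), Function.update_self, Function.update_self]
        · rw [Function.update_of_ne hl]
          by_cases hlT : l ∈ T
          · rw [if_pos (Finset.mem_insert_of_mem hlT), if_pos hlT]
          · rw [if_neg, if_neg hlT]
            rw [Finset.mem_insert]
            rintro (h | h)
            · exact hl h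
            · exact hlT h
      have h2 : cyc R (insert i J) (fun l => if l ∈ T then v l else w l)
          (Function.update w' i (v i)) ∈ Fil rat n m (n * (J.card + 1)) := by
        apply Submodule.mem_sup_left
        apply Submodule.subset_span
        refine ⟨insert i J, _, _, ?_, rfl⟩
        rw [Finset.card_insert_of_notMem hiJ]
      rw [← hstep] at h2
      have h3 := Submodule.add_mem _ h1 h2
      rwa [sub_add_sub_cancel] at h3
  have h4 := key Jᶜ disjoint_compl_left
  have h5 : (fun i => if i ∈ Jᶜ then v i else w i) = v := by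
    funext i
    by_cases hi : i ∈ J
    · rw [if_neg (by rw [Finset.mem_compl]; exact fun h => h hi), (h i hi).1]
    · rw [if_pos (Finset.mem_compl.2 hi)]
  rw [h5, cycBase_congr J v w' v' (fun j hj => (h j hj).2)] at h4
  exact h4

end Pool.Agent.BBF
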