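import Pool.Agent.BBF.Filt

/-!
# Condition 4 for the filtration
-/

set_option autoImplicit false

noncomputable section

namespace Pool.Agent.BBF

universe u v w

variable {P : Type u} {G : Type v} {m m' : ℕ} {R : Type w} [Field R]
  {rat : ∀ m : ℕ, Submodule R ((Fin m → P) →₀ R)}

theorem Induces.unique {f : Mor P G m m'} {k : ℕ} {I : Fin k ↪o Fin m} {J : Fin k ↪o Fin m'}
    {τ τ' : Equiv.Perm (Fin k)} {s s' : Fin k → G} (h : Induces f I J τ s)
    (h' : Induces f I J τ' s') : τ = τ' ∧ s = s' := by
  constructor
  · ext b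
    have h1 := (h b).symm.trans (h' b)
    injection h1 with h2 h3
    exact congrArg Fin.val (I.injective h2)
  · funext b
    have h1 := (h b).symm.trans (h' b)
    injection h1 with h2 h3

/-- a morphism which maps `J` onto `I` induces an automorphism of `X ^ k` -/
theorem exists_induces (f : Mor P G m m') {k : ℕ} (I : Fin k ↪o Fin m) (J : Fin k ↪o Fin m')
    (h : Onto f (Finset.univ.map J.toEmbedding) (Finset.univ.map I.toEmbedding)) :
    ∃ τ s, Induces f I J τ s := by
  have h1 : ∀ b : Fin k, ∃ (i : Fin k) (g : G), f (J b) = Comp.fac (I i) g := by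
    intro b
    obtain ⟨i, hi, h2⟩ := h.1 (J b) (by simp)
    rw [Finset.mem_map] at hi
    obtain ⟨a, -, rfl⟩ := hi
    rcases hf : f (J b) with _ | ⟨i', g⟩
    · rw [hf] at h2
      simp [Comp.src] at h2
    · rw [hf] at h2
      simp only [Comp.src, Option.some.injEq] at h2
      subst h2
      exact ⟨a, g, rfl⟩
  choose s g hs using h1
  have hsurj : Function.Surjective s := by
    intro a
    obtain ⟨j, hj, h2⟩ := h.2 (I a) (by simp)
    rw [Finset.mem_map] at hj
    obtain ⟨b, -, rfl⟩ := hj
    refine ⟨b, ?_⟩
    have h3 : (f (J b)).src = some (I a) := h2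
    rw [hs b] at h3
    simp only [Comp.src, Option.some.injEq] at h3
    exact I.injective h3
  exact ⟨Equiv.ofBijective s ⟨Finite.injective_iff_surjective.mpr hsurj, hsurj⟩, g, hs⟩

theorem onto_of_induces {f : Mor P G m m'} {k : ℕ} {I : Fin k ↪o Fin m}
    {J : Fin k ↪o Fin m'} {τ : Equiv.Perm (Fin k)} {s : Fin k → G} (h : Induces f I J τ s) :
    Onto f (Finset.univ.map J.toEmbedding) (Finset.univ.map I.toEmbedding) := by
  constructor
  · intro j hj
    rw [Finset.mem_map] at hj
    obtain ⟨b, -, rfl⟩ := hj
    refine ⟨I (τ b), by simp, ?_⟩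
    simp only [RelEmbedding.coe_toEmbedding, h b, Comp.src]
  · intro i hi
    rw [Finset.mem_map] at hi
    obtain ⟨a, -, rfl⟩ := hi
    refine ⟨J (τ.symm a), by simp, ?_⟩
    simp only [RelEmbedding.coe_toEmbedding, h (τ.symm a), Comp.src, Equiv.apply_symm_apply]

/-- the product of all differences -/
def prodDiff (R : Type w) [Field R] {k : ℕ} (x y : Fin k → P) : (Fin k → P) →₀ R :=
  ∑ S : Finset (Fin k), Finsupp.single (fun i => if i ∈ S then y i else x i) ((-1) ^ S.card)

private theorem emb_app_mem {act : G → P → P} {e : G} (he : ∀ p, act e p = p) (o : P) {k : ℕ}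
    (J : Fin k ↪o Fin m') (z : Fin k → P) (b : Fin k) : (emb e o J).app act z (J b) = z b := by
  unfold Mor.app emb
  have h : ∃ b', J b' = J b := ⟨b, rfl⟩
  rw [dif_pos h]
  have hb : h.choose = b := J.injective h.choose_spec
  rw [hb]
  exact he _

private theorem emb_app_notMem {act : G → P → P} {e : G} (o : P) {k : ℕ}
    (J : Fin k ↪o Fin m') (z : Fin k → P) (j : Fin m') (hj : ¬ ∃ b, J b = j) :
    (emb e o J).app act z j = o := by
  unfold Mor.app emb
  rw [dif_neg hj]
  rfl

/-- the product of differences on the factors `J`, with the constant `o` elsewhere -/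
theorem cyc_induces {act : G → P → P} {e : G} (he : ∀ p, act e p = p) {f : Mor P G m m'} {k : ℕ}
    {I : Fin k ↪o Fin m} {J : Fin k ↪o Fin m'} {τ : Equiv.Perm (Fin k)} {s : Fin k → G}
    (h : Induces f I J τ s) (o : P) (x y : Fin m → P) :
    ((prodDiff R (fun b => x (I b)) (fun b => y (I b))).mapDomain (symAct act τ s)).mapDomain
        ((emb e o J).app act) =
      cyc R (Finset.univ.map J.toEmbedding)
        (fun j => if j ∈ Finset.univ.map J.toEmbedding then f.app act x j else o)
        (fun j => if j ∈ Finset.univ.map J.toEmbedding then f.app act y j else o) := by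
  classical
  unfold prodDiff cyc
  rw [Finsupp.mapDomain_finsetSum, Finsupp.mapDomain_finsetSum]
  simp only [Finsupp.mapDomain_single]
  refine Finset.sum_bij (fun S _ => (S.map τ.symm.toEmbedding).map J.toEmbedding) ?_ ?_ ?_ ?_
  · intro S _
    rw [Finset.mem_powerset]
    exact Finset.map_subset_map.mpr (Finset.subset_univ _)
  · intro S _ S' _ hSS
    exact Finset.map_injective _ (Finset.map_injective _ hSS)
  · intro T hT
    rw [Finset.mem_powerset, Finset.subset_map_iff] at hT
    obtain ⟨U, -, rfl⟩ := hT
    refine ⟨U.map τ.toEmbedding, Finset.mem_univ _, ?_⟩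
    congr 1
    rw [Finset.map_map]
    convert Finset.map_refl
    ext b
    simp
  · intro S _
    rw [Finset.card_map, Finset.card_map]
    congr 1
    funext j
    by_cases hj : ∃ b, J b = j
    · obtain ⟨b, rfl⟩ := hj
      rw [emb_app_mem he]
      have h1 : (J b ∈ (S.map τ.symm.toEmbedding).map J.toEmbedding) ↔ τ b ∈ S := by
        simp [Finset.mem_map]
      have h2 : J b ∈ Finset.univ.map J.toEmbedding := by simp
      rw [if_pos h2, if_pos h2]
      unfold symAct Mor.app
      rw [h b]
      by_cases hb : τ b ∈ S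
      · rw [if_pos (h1.mpr hb)]
        simp only [if_pos hb, Comp.app]
      · rw [if_neg (fun h3 => hb (h1.mp h3))]
        simp only [if_neg hb, Comp.app]
    · rw [emb_app_notMem _ _ _ _ hj]
      have h2 : j ∉ Finset.univ.map J.toEmbedding := by
        intro h3
        rw [Finset.mem_map] at h3
        obtain ⟨b, -, hb⟩ := h3
        exact hj ⟨b, hb⟩
      rw [if_neg h2, if_neg h2, ite_self]

private lemma pushM_apply (act : G → P → P) (γ : Mor P G m m' →₀ R) (z : (Fin m → P) →₀ R) :
    pushM act γ z = ∑ f ∈ γ.support, γ f • z.mapDomain (f.app act) := by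
  unfold pushM
  rw [Finsupp.sum, LinearMap.sum_apply]
  rfl

private lemma Fil_anti' (n : ℕ) {ν ν' : ℕ} (h : ν ≤ ν') : Fil rat n m ν' ≤ Fil rat n m ν := by
  induction ν', h using Nat.le_induction with
  | base => exact le_rfl
  | succ k _ ih => exact (Fil_anti n k).trans ih

/-- condition 3 -/
theorem map_pushM_le {act : G → P → P} (n ν : ℕ)
    (hrat : ∀ f : Mor P G m m', (rat m).map (Finsupp.lmapDomain R R (f.app act)) ≤ rat m')
    (γ : Mor P G m m' →₀ R) : (Fil rat n m ν).map (pushM act γ) ≤ Fil rat n m' ν := by
  rw [Submodule.map_le_iff_le_comap]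
  intro z hz
  rw [Submodule.mem_comap, pushM_apply]
  apply Submodule.sum_mem
  intro f _
  apply Submodule.smul_mem
  exact Fil_map act n ν f (hrat f) (Submodule.mem_map_of_mem hz)

/-- the images of the products of differences over `I` -/
private lemma key {act : G → P → P} {e : G} (he : ∀ p, act e p = p) (n : ℕ) (hn : 1 ≤ n)
    (hrat : ∀ (m m' : ℕ) (f : Mor P G m m'),
      (rat m).map (Finsupp.lmapDomain R R (f.app act)) ≤ rat m')
    (γ : Mor P G m m' →₀ R) (k : ℕ) (I : Fin k ↪o Fin m)
    (hγ : ∀ (J : Fin k ↪o Fin m') (x y : Fin k → P), (∑ f ∈ γ.support, γ f • (by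
      classical exact if h : ∃ g : Equiv.Perm (Fin k) × (Fin k → G), Induces f I J g.1 g.2 then
        (prodDiff R x y).mapDomain (symAct act h.choose.1 h.choose.2) else 0 :
          (Fin k → P) →₀ R)) ∈ rat k)
    (x y : Fin m → P) (o : P) :
    pushM act γ (cyc R (Finset.univ.map I.toEmbedding) x y) ∈ Fil rat n m' (n * k + 1) := by
  classical
  have hI : (Finset.univ.map I.toEmbedding).card = k := by
    rw [Finset.card_map, Finset.card_univ, Fintype.card_fin]
  -- the main term
  let M : (Fin k ↪o Fin m') → ((Fin m' → P) →₀ R) := fun J =>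
    (∑ f ∈ γ.support, γ f • (if h : ∃ g : Equiv.Perm (Fin k) × (Fin k → G),
        Induces f I J g.1 g.2 then (prodDiff R (fun b => x (I b)) (fun b => y (I b))).mapDomain
          (symAct act h.choose.1 h.choose.2) else 0)).mapDomain ((emb e o J).app act)
  have hM : ∀ J, M J ∈ Fil rat n m' (n * k + 1) := by
    intro J
    apply rat_le_Fil
    exact hrat _ _ (emb e o J) (Submodule.mem_map_of_mem
      (hγ J (fun b => x (I b)) (fun b => y (I b))))
  have hM' : ∀ J, M J = ∑ f ∈ γ.support, γ f •
      (if (Onto f (Finset.univ.map J.toEmbedding) (Finset.univ.map I.toEmbedding)) then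
        cyc R (Finset.univ.map J.toEmbedding)
        (fun j => if j ∈ Finset.univ.map J.toEmbedding then f.app act x j else o)
        (fun j => if j ∈ Finset.univ.map J.toEmbedding then f.app act y j else o) else 0) := by
    intro J
    change Finsupp.mapDomain _ _ = _
    rw [Finsupp.mapDomain_finsetSum]
    apply Finset.sum_congr rfl
    intro f _
    rw [Finsupp.mapDomain_smul]
    by_cases h : ∃ g : Equiv.Perm (Fin k) × (Fin k → G), Induces f I J g.1 g.2
    · rw [dif_pos h, if_pos (onto_of_induces h.choose_spec)]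
      congr 1
      exact cyc_induces he h.choose_spec o x y
    · rw [dif_neg h, if_neg, Finsupp.mapDomain_zero]
      intro h'
      obtain ⟨τ, s, h2⟩ := exists_induces f I J h'
      exact h ⟨(τ, s), h2⟩
  -- the difference
  have hsum : pushM act γ (cyc R (Finset.univ.map I.toEmbedding) x y) - ∑ J, M J ∈
      Fil rat n m' (n * k + 1) := by
    rw [pushM_apply]
    simp only [hM']
    rw [Finset.sum_comm, ← Finset.sum_sub_distrib]
    apply Submodule.sum_mem
    intro f _
    rw [← Finset.smul_sum, ← smul_sub]
    apply Submodule.smul_mem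
    rw [map_cyc, ← Finset.sum_filter_add_sum_filter_not _ (fun K : Finset (Fin m') => K.card = k)]
    have h3 : ∀ K : Finset (Fin m'), Onto f K (Finset.univ.map I.toEmbedding) → k ≤ K.card := by
      intro K hK
      have := card_le_of_onto hK
      rwa [hI] at this
    have h4 : ∑ K ∈ ((Finset.univ.filter fun K : Finset (Fin m') =>
        Onto f K (Finset.univ.map I.toEmbedding)).filter fun K => ¬ K.card = k),
        ((-1 : R) ^ (K.card + (Finset.univ.map I.toEmbedding).card)) •
          cyc R K (f.app act x) (f.app act y) ∈ Fil rat n m' (n * k + 1) := by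
      apply Submodule.sum_mem
      intro K hK
      rw [Finset.mem_filter, Finset.mem_filter] at hK
      apply Submodule.smul_mem
      have h5 : k + 1 ≤ K.card := lt_of_le_of_ne (h3 K hK.1.2) (Ne.symm hK.2)
      have h6 : n * k + 1 ≤ n * K.card := by
        calc n * k + 1 ≤ n * k + n := by omega
          _ = n * (k + 1) := by ring
          _ ≤ n * K.card := Nat.mul_le_mul_left _ h5
      exact Submodule.mem_sup_left (Submodule.subset_span
        ⟨K, f.app act x, f.app act y, h6, rfl⟩)
    have h7 : ∑ K ∈ ((Finset.univ.filter fun K : Finset (Fin m') =>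
        Onto f K (Finset.univ.map I.toEmbedding)).filter fun K => K.card = k),
        ((-1 : R) ^ (K.card + (Finset.univ.map I.toEmbedding).card)) •
          cyc R K (f.app act x) (f.app act y) =
        ∑ J : Fin k ↪o Fin m', (if (Onto f (Finset.univ.map J.toEmbedding)
          (Finset.univ.map I.toEmbedding)) then
          cyc R (Finset.univ.map J.toEmbedding) (f.app act x) (f.app act y) else 0) := by
      rw [← Finset.sum_filter]
      symm
      apply Finset.sum_bij (fun (J : Fin k ↪o Fin m') _ => Finset.univ.map J.toEmbedding)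
      · intro J hJ
        rw [Finset.mem_filter] at hJ
        rw [Finset.mem_filter, Finset.mem_filter]
        refine ⟨⟨Finset.mem_univ _, hJ.2⟩, ?_⟩
        rw [Finset.card_map, Finset.card_univ, Fintype.card_fin]
      · intro J _ J' _ h
        apply OrderEmbedding.range_inj.1 
        ext j
        have := Finset.ext_iff.1 h j
        simpa using this
      · intro K hK
        rw [Finset.mem_filter, Finset.mem_filter] at hK
        refine ⟨K.orderEmbOfFin hK.2, ?_, ?_⟩
        · rw [Finset.mem_filter]
          refine ⟨Finset.mem_univ _, ?_⟩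
          rw [Finset.map_orderEmbOfFin_univ]
          exact hK.1.2
        · exact Finset.map_orderEmbOfFin_univ K hK.2
      · intro J _
        rw [hI, Finset.card_map, Finset.card_univ, Fintype.card_fin, ← two_mul, pow_mul]
        simp
    rw [h7, add_sub_right_comm, ← Finset.sum_sub_distrib]
    apply Submodule.add_mem _ _ h4
    apply Submodule.sum_mem
    intro J _
    by_cases h : Onto f (Finset.univ.map J.toEmbedding) (Finset.univ.map I.toEmbedding)
    · rw [if_pos h, if_pos h]
      have h8 := cyc_base (rat := rat) n (Finset.univ.map J.toEmbedding) (f.app act x)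
        (f.app act y)
        (fun j => if j ∈ Finset.univ.map J.toEmbedding then f.app act x j else o)
        (fun j => if j ∈ Finset.univ.map J.toEmbedding then f.app act y j else o)
        (fun j hj => by simp only [hj, if_true, and_self])
      rw [Finset.card_map, Finset.card_univ, Fintype.card_fin] at h8
      refine Fil_anti' n ?_ h8
      nlinarith
    · rw [if_neg h, if_neg h, sub_zero]
      exact Submodule.zero_mem _
  have := Submodule.add_mem _ hsum (Submodule.sum_mem _ fun J (_ : J ∈ Finset.univ) => hM J)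
  simpa using this

/-- condition 4 -/
theorem Fil_grad {act : G → P → P} {e : G} (he : ∀ p, act e p = p) [Nonempty P] (n : ℕ)
    (hn : 1 ≤ n)
    (hrat : ∀ (m m' : ℕ) (f : Mor P G m m'),
      (rat m).map (Finsupp.lmapDomain R R (f.app act)) ≤ rat m')
    (hdeg : ∀ (m : ℕ), ∀ z ∈ rat m, (z.sum fun _ c => c) = 0)
    (γ : Mor P G m m' →₀ R) (ν : ℕ) (h0 : ν = 0 → (γ.sum fun _ c => c) = 0)
    (hγ : ∀ k : ℕ, 0 < k → ν = n * k → ∀ (I : Fin k ↪o Fin m) (J : Fin k ↪o Fin m')
      (x y : Fin k → P), (∑ f ∈ γ.support, γ f • (by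
      classical exact if h : ∃ g : Equiv.Perm (Fin k) × (Fin k → G), Induces f I J g.1 g.2 then
        (prodDiff R x y).mapDomain (symAct act h.choose.1 h.choose.2) else 0 :
          (Fin k → P) →₀ R)) ∈ rat k) :
    (Fil rat n m ν).map (pushM act γ) ≤ Fil rat n m' (ν + 1) := by
  classical
  obtain ⟨o⟩ := ‹Nonempty P›
  rw [Submodule.map_le_iff_le_comap]
  conv_lhs => unfold Fil
  rw [sup_le_iff]
  constructor
  swap
  · intro z hz
    rw [Submodule.mem_comap, pushM_apply]
    apply Submodule.sum_mem
    intro f _
    apply Submodule.smul_mem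
    apply rat_le_Fil
    exact hrat _ _ f (Submodule.mem_map_of_mem hz)
  rw [Submodule.span_le]
  rintro z ⟨I, x, y, hI, rfl⟩
  rw [SetLike.mem_coe, Submodule.mem_comap]
  by_cases hlt : ν + 1 ≤ n * I.card
  · apply map_pushM_le (act := act) n (ν + 1) (hrat m m') γ
    exact Submodule.mem_map_of_mem (cyc_mem n (ν + 1) hlt)
  have hν : ν = n * I.card := by omega
  rcases Nat.eq_zero_or_pos I.card with h0' | hpos
  · -- `I` is empty
    rw [h0', mul_zero] at hν
    have hIe : I = ∅ := Finset.card_eq_zero.1 h0'
    subst hIe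
    have hc := h0 hν
    subst hν
    rw [Fil_one n hn (hdeg m')]
    have h6 : pushM act γ (cyc R ∅ x y) =
        ∑ f ∈ γ.support, Finsupp.single (f.app act x) (γ f) := by
      rw [pushM_apply]
      apply Finset.sum_congr rfl
      intro f _
      rw [cyc_empty, Finsupp.mapDomain_single, Finsupp.smul_single, smul_eq_mul, mul_one]
    rw [h6, ← Finsupp.sum_finsetSum_index (fun _ => rfl) (fun _ _ _ => rfl), ← hc]
    apply Finset.sum_congr rfl
    intro f _
    rw [Finsupp.sum_single_index rfl]
  · have hmap : Finset.univ.map (I.orderEmbOfFin rfl).toEmbedding = I :=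
      Finset.map_orderEmbOfFin_univ I rfl
    have h1 := key he n hn hrat γ I.card (I.orderEmbOfFin rfl)
      (fun J x y => hγ I.card hpos hν (I.orderEmbOfFin rfl) J x y) x y o
    rw [hmap, ← hν] at h1
    exact h1

end Pool.Agent.BBF
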